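import Mathlib

/-!
The number of the events of a sequence which occur.
-/

set_option autoImplicit false

open MeasureTheory Filter Topology Finset

namespace Pool.Agent.Helper99.FA

variable {Ω : Type*} [MeasurableSpace Ω] {P : Measure Ω}

open Classical in
/-- Almost surely at most `S(N) ^ (1 + ε)` of the first `N` events occur, `S(N)` the sum of the
first `N` bounds of the measures of the events. -/
theorem count {B : ℕ → Set Ω} {s : ℕ → ℝ} (h0 : ∀ n, 0 ≤ s n) {C : ℝ} (hC : ∀ n, s n ≤ C)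
    (hs : ∀ n, P (B n) ≤ ENNReal.ofReal (s n))
    (hdiv : Tendsto (fun N => ∑ n ∈ range N, s n) atTop atTop) {ε : ℝ} (hε : 0 < ε) :
    ∀ᵐ ω ∂P, ∀ᶠ N in atTop, (((range N).filter fun n => ω ∈ B n).card : ℝ) ≤
      (∑ n ∈ range N, s n) ^ (1 + ε) := by
  set S : ℕ → ℝ := fun N => ∑ n ∈ range N, s n with hS
  have hSmono : Monotone S := fun a b hab =>
    sum_le_sum_of_subset_of_nonneg (range_mono hab) fun _ _ _ => h0 _
  have hC0 : 0 ≤ C := (h0 0).trans (hC 0)
  have hex : ∀ j : ℕ, ∃ N, (2 : ℝ) ^ j ≤ S N := fun j => (hdiv.eventually_ge_atTop _).exists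
  set t : ℕ → ℕ := fun j => Nat.find (hex j) with ht
  have ht1 : ∀ j : ℕ, (2 : ℝ) ^ j ≤ S (t j) := fun j => Nat.find_spec (hex j)
  have ht2 : ∀ j : ℕ, S (t j) ≤ (2 : ℝ) ^ j + C := by
    intro j
    rcases Nat.eq_zero_or_pos (t j) with h | h
    · rw [h]
      have : S 0 = 0 := by simp [hS]
      rw [this]
      positivity
    · obtain ⟨i, hi⟩ := Nat.exists_eq_succ_of_ne_zero h.ne'
      have h1 : ¬ (2 : ℝ) ^ j ≤ S i := Nat.find_min (hex j) (by
        have : i < t j := by omega
        exact this)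
      rw [hi, Nat.succ_eq_add_one]
      have h2 : S (i + 1) = S i + s i := sum_range_succ _ _
      have h3 := hC i
      linarith
  -- the counting function
  set X : ℕ → Ω → ENNReal := fun N ω =>
    ∑ n ∈ range N, (toMeasurable P (B n)).indicator (fun _ => (1 : ENNReal)) ω with hX
  have hXm : ∀ N, Measurable (X N) := fun N =>
    Finset.measurable_sum _ fun n _ => measurable_const.indicator (measurableSet_toMeasurable _ _)
  have hXint : ∀ N, ∫⁻ ω, X N ω ∂P ≤ ENNReal.ofReal (S N) := by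
    intro N
    simp only [hX]
    rw [lintegral_finsetSum _ fun n _ =>
      measurable_const.indicator (measurableSet_toMeasurable _ _)]
    rw [hS, ENNReal.ofReal_sum_of_nonneg fun n _ => h0 n]
    apply sum_le_sum
    intro n _
    rw [lintegral_indicator (measurableSet_toMeasurable _ _), lintegral_const, one_mul,
      Measure.restrict_apply_univ, measure_toMeasurable]
    exact hs n
  have hXc : ∀ N ω, ((((range N).filter fun n => ω ∈ B n).card : ℕ) : ENNReal) ≤ X N ω := by
    intro N ω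
    rw [card_filter]
    push_cast
    apply sum_le_sum
    intro n _
    split_ifs with h
    · rw [Set.indicator_of_mem (subset_toMeasurable P (B n) h)]
    · exact zero_le
  -- the bad events
  set U : ℕ → Set Ω := fun j => {ω | ENNReal.ofReal ((2 : ℝ) ^ ((j : ℝ) * (1 + ε))) ≤
    X (t (j + 1)) ω} with hU
  set r : ℝ := (2 : ℝ) ^ (-ε) with hr
  have hr0 : 0 < r := by positivity
  have hr1 : r < 1 := Real.rpow_lt_one_of_one_lt_of_neg one_lt_two (by linarith)
  have hUp : ∀ j, P (U j) ≤ ENNReal.ofReal ((2 + C) * r ^ j) := by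
    intro j
    have hpos : (0 : ℝ) < (2 : ℝ) ^ ((j : ℝ) * (1 + ε)) := by positivity
    have h1 := meas_ge_le_lintegral_div (μ := P) (hXm (t (j + 1))).aemeasurable
      (ε := ENNReal.ofReal ((2 : ℝ) ^ ((j : ℝ) * (1 + ε))))
      (by simpa using hpos) ENNReal.ofReal_ne_top
    refine h1.trans ?_
    refine (ENNReal.div_le_div_right ((hXint _).trans
      (ENNReal.ofReal_le_ofReal (ht2 (j + 1)))) _).trans ?_
    rw [← ENNReal.ofReal_div_of_pos hpos]
    apply ENNReal.ofReal_le_ofReal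
    rw [div_le_iff₀ hpos]
    have h2 : r ^ j * (2 : ℝ) ^ ((j : ℝ) * (1 + ε)) = (2 : ℝ) ^ j := by
      rw [hr, ← Real.rpow_natCast, ← Real.rpow_mul (by norm_num), ← Real.rpow_add (by norm_num),
        ← Real.rpow_natCast 2 j]
      congr 1
      ring
    have h3 : (1 : ℝ) ≤ (2 : ℝ) ^ j := one_le_pow₀ (by norm_num)
    calc (2 : ℝ) ^ (j + 1) + C ≤ (2 + C) * (2 : ℝ) ^ j := by
          rw [pow_succ]
          nlinarith
      _ = (2 + C) * (r ^ j * (2 : ℝ) ^ ((j : ℝ) * (1 + ε))) := by rw [h2]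
      _ = _ := by ring
  have hsum : ∑' j, P (U j) ≠ ⊤ := by
    refine ne_top_of_le_ne_top ?_ (ENNReal.tsum_le_tsum hUp)
    exact ((summable_geometric_of_lt_one hr0.le hr1).mul_left (2 + C)).tsum_ofReal_ne_top
  filter_upwards [ae_eventually_notMem hsum] with ω hω
  obtain ⟨j₀, hj₀⟩ := eventually_atTop.1 hω
  filter_upwards [eventually_ge_atTop (t (j₀ + 1))] with N hN
  have hSN : (2 : ℝ) ^ (j₀ + 1) ≤ S N := (ht1 _).trans (hSmono hN)
  have hSN1 : 1 ≤ S N := le_trans (one_le_pow₀ (by norm_num)) hSN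
  obtain ⟨j, hj1, hj2⟩ := exists_nat_pow_near hSN1 (by norm_num : (1 : ℝ) < 2)
  have hjj : j₀ ≤ j := by
    by_contra hcon
    have h1 : (2 : ℝ) ^ (j + 1) ≤ 2 ^ (j₀ + 1) := pow_le_pow_right₀ (by norm_num) (by omega)
    linarith
  have hNj : N ≤ t (j + 1) := by
    by_contra hcon
    have h1 := (ht1 (j + 1)).trans (hSmono (not_le.1 hcon).le)
    linarith
  have h1 := hj₀ j hjj
  simp only [hU, Set.mem_ofPred_eq, not_le] at h1
  have h2 : ((((range N).filter fun n => ω ∈ B n).card : ℕ) : ENNReal) <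
      ENNReal.ofReal ((2 : ℝ) ^ ((j : ℝ) * (1 + ε))) := by
    refine lt_of_le_of_lt ?_ h1
    refine le_trans ?_ (hXc (t (j + 1)) ω)
    exact_mod_cast card_le_card (filter_subset_filter _ (range_mono hNj))
  have h3 : (((range N).filter fun n => ω ∈ B n).card : ℝ) < (2 : ℝ) ^ ((j : ℝ) * (1 + ε)) := by
    rw [← ENNReal.ofReal_natCast] at h2
    exact (ENNReal.ofReal_lt_ofReal_iff (by positivity)).1 h2
  refine h3.le.trans ?_
  rw [Real.rpow_mul (by norm_num), Real.rpow_natCast]
  exact Real.rpow_le_rpow (by positivity) hj1 (by linarith)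

end Pool.Agent.Helper99.FA
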