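import Mathlib

/-!
The logarithmic area of the preimage of a set under the power maps.
-/

set_option autoImplicit false

open MeasureTheory Filter Topology

namespace Pool.Agent.Helper99.FA

/-- logarithmic area -/
noncomputable def la : Measure ℂ :=
  (volume : Measure ℂ).withDensity (fun w => ENNReal.ofReal ((‖w‖ ^ 2)⁻¹))

/-- the angular mean -/
noncomputable def ang (E : Set ℂ) (m : ℕ) (r : ℝ) : ENNReal :=
  ∫⁻ θ in Set.Ioc (-Real.pi) Real.pi,
    E.indicator (fun _ => (1 : ENNReal)) (r * Complex.exp (((m * θ : ℝ) : ℂ) * Complex.I))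

lemma la_eq {E : Set ℂ} (hE : MeasurableSet E) (m : ℕ) (_ : m ≠ 0) :
    la ((fun a : ℂ => a ^ m) ⁻¹' E) =
      ∫⁻ r in Set.Ioi (0 : ℝ), ENNReal.ofReal r⁻¹ * ang E m (r ^ m) := by
  have hpm : Measurable (fun a : ℂ => a ^ m) := by fun_prop
  have hE' : MeasurableSet ((fun a : ℂ => a ^ m) ⁻¹' E) := hpm hE
  rw [la, withDensity_apply _ hE', ← lintegral_indicator hE',
    ← Complex.lintegral_comp_polarCoord_symm, polarCoord_target, Measure.volume_eq_prod,
    setLIntegral_prod]
  · apply setLIntegral_congr_fun measurableSet_Ioi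
    intro r hr
    have hr0 : 0 < r := hr
    simp only [ang]
    rw [← restrict_Ioo_eq_restrict_Ioc, ← lintegral_const_mul]
    · apply setLIntegral_congr_fun measurableSet_Ioo
      intro θ _
      have hn : ‖Complex.polarCoord.symm (r, θ)‖ = r := by
        rw [Complex.norm_polarCoord_symm]
        exact abs_of_pos hr0
      have he : (Complex.polarCoord.symm (r, θ)) ^ m =
          ((r ^ m : ℝ) : ℂ) * Complex.exp (((m * θ : ℝ) : ℂ) * Complex.I) := by
        have h1 : Complex.polarCoord.symm (r, θ) = (r : ℂ) * Complex.exp ((θ : ℂ) * Complex.I) := by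
          rw [Complex.polarCoord_symm_apply, Complex.exp_mul_I, Complex.ofReal_cos,
            Complex.ofReal_sin]
        rw [h1, mul_pow, ← Complex.exp_nat_mul]
        push_cast
        congr 2
        ring
      simp only [smul_eq_mul]
      by_cases hc : (Complex.polarCoord.symm (r, θ)) ^ m ∈ E
      · rw [Set.indicator_of_mem (by exact hc), Set.indicator_of_mem (by rw [← he]; exact hc), hn,
          ← ENNReal.ofReal_mul hr0.le, mul_one]
        congr 1
        field_simp
      · rw [Set.indicator_of_notMem (by exact hc), Set.indicator_of_notMem (by rw [← he]; exact hc)]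
        simp
    · have hmF : Measurable (E.indicator (fun _ => (1 : ENNReal))) := measurable_const.indicator hE
      exact hmF.comp (by fun_prop)
  · have hm1 : Measurable (((fun a : ℂ => a ^ m) ⁻¹' E).indicator
        (fun w => ENNReal.ofReal ((‖w‖ ^ 2)⁻¹))) := by
      apply Measurable.indicator _ hE'
      fun_prop
    have hm2 : Measurable fun p : ℝ × ℝ => Complex.polarCoord.symm p := by
      simp only [Complex.polarCoord_symm_apply]
      fun_prop
    apply Measurable.aemeasurable
    exact (ENNReal.measurable_ofReal.comp measurable_fst).smul (hm1.comp hm2)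

lemma ang_eq {E : Set ℂ} (hE : MeasurableSet E) {m : ℕ} (hm : 1 ≤ m) (r : ℝ) :
    ang E m r = ang E 1 r := by
  rcases Nat.eq_or_lt_of_le hm with h | h
  · rw [← h]
  have hT : Fact (0 < 2 * Real.pi) := ⟨by positivity⟩
  let F : AddCircle (2 * Real.pi) → ENNReal := fun b =>
    E.indicator (fun _ => (1 : ENNReal)) (r * (AddCircle.toCircle b : ℂ))
  have hF : Measurable F := by
    have hmF : Measurable (E.indicator (fun _ => (1 : ENNReal))) := measurable_const.indicator hE
    apply hmF.comp
    apply Measurable.const_mul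
    exact (continuous_subtype_val.comp AddCircle.continuous_toCircle).measurable
  have hexp : ∀ θ : ℝ, ((AddCircle.toCircle (θ : AddCircle (2 * Real.pi)) : Circle) : ℂ) =
      Complex.exp ((θ : ℂ) * Complex.I) := by
    intro θ
    rw [AddCircle.toCircle_apply_mk, Circle.coe_exp]
    congr 3
    rw [div_self (by positivity), one_mul]
  have key : ∀ k : ℕ, ang E k r = ∫⁻ b : AddCircle (2 * Real.pi), F (k • b) := by
    intro k
    rw [← AddCircle.lintegral_preimage (2 * Real.pi) (-Real.pi)]
    rw [show -Real.pi + 2 * Real.pi = Real.pi by ring]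
    unfold ang
    apply setLIntegral_congr_fun measurableSet_Ioc
    intro θ _
    show E.indicator (fun _ => (1 : ENNReal)) (r * Complex.exp (((k * θ : ℝ) : ℂ) * Complex.I)) =
      E.indicator (fun _ => (1 : ENNReal))
        (r * ((AddCircle.toCircle (k • (θ : AddCircle (2 * Real.pi))) : Circle) : ℂ))
    rw [← AddCircle.coe_nsmul, hexp, nsmul_eq_mul]
  rw [key m, key 1]
  have hmp : MeasurePreserving (fun b : AddCircle (2 * Real.pi) => m • b) :=
    (AddCircle.ergodic_nsmul h).toMeasurePreserving
  rw [hmp.lintegral_comp hF]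
  simp

/-- **The power map multiplies logarithmic area by the inverse of the exponent.** -/
theorem la_pow {E : Set ℂ} (hE : MeasurableSet E) {m : ℕ} (hm : 1 ≤ m) :
    ENNReal.ofReal m * la ((fun a : ℂ => a ^ m) ⁻¹' E) = la E := by
  have hm0 : m ≠ 0 := by omega
  have hmr : (0 : ℝ) < m := by exact_mod_cast hm
  have h1 : la E = ∫⁻ r in Set.Ioi (0 : ℝ), ENNReal.ofReal r⁻¹ * ang E 1 r := by
    have h2 := la_eq hE 1 one_ne_zero
    simp only [pow_one] at h2
    exact h2
  have himg : (fun r : ℝ => r ^ m) '' Set.Ioi 0 = Set.Ioi 0 := by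
    ext x
    constructor
    · rintro ⟨r, hr, rfl⟩
      have hr0 : 0 < r := hr
      exact pow_pos hr0 m
    · intro hx
      have hx0 : 0 < x := hx
      refine ⟨x ^ ((m : ℝ)⁻¹), Real.rpow_pos_of_pos hx0 _, ?_⟩
      simp only
      rw [← Real.rpow_natCast, ← Real.rpow_mul hx0.le, inv_mul_cancel₀ hmr.ne', Real.rpow_one]
  rw [la_eq hE m hm0, h1, ← lintegral_const_mul' _ _ ENNReal.ofReal_ne_top]
  conv_rhs => rw [← himg]
  rw [lintegral_image_eq_lintegral_abs_deriv_mul measurableSet_Ioi
    (f' := fun r => m * r ^ (m - 1)) (fun x _ => (hasDerivAt_pow m x).hasDerivWithinAt)]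
  · apply setLIntegral_congr_fun measurableSet_Ioi
    intro r hr
    have hr0 : 0 < r := hr
    simp only
    rw [ang_eq hE hm, ← mul_assoc, ← mul_assoc, ← ENNReal.ofReal_mul hmr.le,
      ← ENNReal.ofReal_mul (abs_nonneg _)]
    congr 2
    rw [abs_of_pos (by positivity)]
    obtain ⟨k, rfl⟩ : ∃ k, m = k + 1 := ⟨m - 1, by omega⟩
    rw [Nat.add_sub_cancel, pow_succ]
    field_simp
  · intro x hx y hy hxy
    exact (pow_left_inj₀ (le_of_lt hx) (le_of_lt hy) hm0).1 hxy

end Pool.Agent.Helper99.FA
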