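import Pool.Agent.Helper99.FA.Seq

/-!
Sequences of sets of finite logarithmic area, and the powers of almost every complex number.
-/

set_option autoImplicit false

open MeasureTheory Filter Topology Finset

namespace Pool.Agent.Helper99.FA

open Classical in
theorem scal {E : ℕ → Set ℂ} {s : ℕ → ℝ} {c : ℝ} (hc : 0 < c) (hs0 : ∀ k, 0 ≤ s k)
    (hE : ∀ k, la (E k) ≤ ENNReal.ofReal (c * s k))
    (hscale : ∀ b : ℂ, b ≠ 0 → ∀ E : Set ℂ, MeasurableSet E → la ((fun a : ℂ => a * b) ⁻¹' E) = la E)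
    {m : ℕ → ℕ} (hm : ∀ k, 1 ≤ m k) {b : ℕ → ℂ} (hb : ∀ k, b k ≠ 0) :
    (Summable (fun k => s k / m k) → ∀ᵐ α : ℂ, ∀ᶠ k in atTop, α ^ m k * b k ∉ E k) ∧
    (¬ Summable (fun k => s k / m k) → ∀ C : ℝ, (∀ k, s k / m k ≤ C) → ∀ δ : ℝ, 0 < δ →
      ∀ᵐ α : ℂ, ∀ᶠ N in atTop, (((range N).filter fun k => α ^ m k * b k ∈ E k).card : ℝ) ≤
        (∑ k ∈ range N, s k / m k) ^ (1 + δ)) := by
  have hB : ∀ k, la {α : ℂ | α ^ m k * b k ∈ E k} ≤ ENNReal.ofReal (c * (s k / m k)) := by
    intro k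
    refine (la_preimage (hE k) hscale (hm k) (hb k)).trans (le_of_eq ?_)
    rw [mul_div_assoc]
  have hmr : ∀ k, (0 : ℝ) < m k := fun k => by exact_mod_cast hm k
  have hq0 : ∀ k, 0 ≤ s k / m k := fun k => div_nonneg (hs0 k) (hmr k).le
  constructor
  · intro hsum
    apply ae_of_la
    have h1 : ∑' k, la {α : ℂ | α ^ m k * b k ∈ E k} ≠ ⊤ := by
      refine ne_top_of_le_ne_top ?_ (ENNReal.tsum_le_tsum hB)
      exact (hsum.mul_left c).tsum_ofReal_ne_top
    filter_upwards [ae_eventually_notMem h1] with α hα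
    exact hα
  · intro hns C hC δ hδ
    apply ae_of_la
    have hdiv0 : Tendsto (fun N => ∑ k ∈ range N, s k / m k) atTop atTop :=
      (not_summable_iff_tendsto_nat_atTop_of_nonneg hq0).1 hns
    have hdiv : Tendsto (fun N => ∑ k ∈ range N, c * (s k / m k)) atTop atTop := by
      simp only [← mul_sum]
      exact hdiv0.const_mul_atTop hc
    have h1 := count (P := la) (B := fun k => {α : ℂ | α ^ m k * b k ∈ E k})
      (s := fun k => c * (s k / m k)) (fun k => mul_nonneg hc.le (hq0 k))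
      (C := c * C) (fun k => mul_le_mul_of_nonneg_left (hC k) hc.le) hB hdiv (half_pos hδ)
    have hlim : Tendsto (fun N => (∑ k ∈ range N, s k / m k) ^ (δ / 2)) atTop atTop :=
      (tendsto_rpow_atTop (half_pos hδ)).comp hdiv0
    filter_upwards [h1] with α hα
    filter_upwards [hα, hlim.eventually_ge_atTop (c ^ (1 + δ / 2)),
      hdiv0.eventually_ge_atTop 1] with N h2 h3 h4
    have hS0 : 0 < ∑ k ∈ range N, s k / m k := by linarith
    simp only [← mul_sum] at h2
    rw [Real.mul_rpow hc.le hS0.le] at h2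
    refine h2.trans ?_
    calc c ^ (1 + δ / 2) * (∑ k ∈ range N, s k / m k) ^ (1 + δ / 2) ≤
          (∑ k ∈ range N, s k / m k) ^ (δ / 2) * (∑ k ∈ range N, s k / m k) ^ (1 + δ / 2) :=
          mul_le_mul_of_nonneg_right h3 (by positivity)
      _ = (∑ k ∈ range N, s k / m k) ^ (δ / 2 + (1 + δ / 2)) := (Real.rpow_add hS0 _ _).symm
      _ = _ := by
          congr 1
          ring

end Pool.Agent.Helper99.FA
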