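import Pool.Agent.Helper99.FA.Count
import Pool.Agent.Helper99.FA.Pow

/-!
Independent sequences, and the number of exceptional indices.
-/

set_option autoImplicit false

open MeasureTheory Filter Topology Finset ProbabilityTheory

namespace Pool.Agent.Helper99.FA

lemma rpow_step {b : ℝ} (hb0 : 0 ≤ b) (hb1 : b ≤ 1) (n : ℕ) :
    b * ((n : ℝ) + 1) ^ (b - 1) ≤ ((n : ℝ) + 1) ^ b - (n : ℝ) ^ b := by
  have hn : (0 : ℝ) < (n : ℝ) + 1 := by positivity
  have h1 : -1 ≤ -(1 / ((n : ℝ) + 1)) := by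
    rw [neg_le_neg_iff, div_le_one hn]
    have : (0 : ℝ) ≤ n := Nat.cast_nonneg n
    linarith
  have h2 := rpow_one_add_le_one_add_mul_self h1 hb0 hb1
  have h3 : (n : ℝ) = ((n : ℝ) + 1) * (1 + -(1 / ((n : ℝ) + 1))) := by
    field_simp
    ring
  have h4 : (0 : ℝ) ≤ 1 + -(1 / ((n : ℝ) + 1)) := by linarith
  have h5 : (n : ℝ) ^ b = ((n : ℝ) + 1) ^ b * (1 + -(1 / ((n : ℝ) + 1))) ^ b := by
    conv_lhs => rw [h3]
    rw [Real.mul_rpow hn.le h4]
  have h6 : ((n : ℝ) + 1) ^ (b - 1) = ((n : ℝ) + 1) ^ b / ((n : ℝ) + 1) := by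
    rw [Real.rpow_sub hn, Real.rpow_one]
  have h7 : (0 : ℝ) ≤ ((n : ℝ) + 1) ^ b := by positivity
  rw [h5, h6]
  have h8 := mul_le_mul_of_nonneg_left h2 h7
  have h9 : ((n : ℝ) + 1) ^ b * (1 + b * -(1 / ((n : ℝ) + 1))) =
      ((n : ℝ) + 1) ^ b - b * (((n : ℝ) + 1) ^ b / ((n : ℝ) + 1)) := by
    ring
  linarith

variable {Ω : Type*} [MeasurableSpace Ω] {P : Measure Ω}

open Classical in
/-- Events of probability at most `K / n ^ (1 - b)`: at most `N ^ (b + δ)` of the first `N` occur. -/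
theorem count_pow [IsProbabilityMeasure P] {B : ℕ → Set Ω} {K b : ℝ} (hb0 : 0 < b) (hb1 : b < 1)
    (n₀ : ℕ) (hB : ∀ n : ℕ, n₀ ≤ n → P (B n) ≤ ENNReal.ofReal (K / (n : ℝ) ^ (1 - b)))
    {δ : ℝ} (hδ : 0 < δ) :
    ∀ᵐ ω ∂P, ∀ᶠ N : ℕ in atTop, (((range N).filter fun n => ω ∈ B n).card : ℝ) ≤
      (N : ℝ) ^ (b + δ) := by
  -- the telescoping bounds
  obtain ⟨c, hc1, hcK, hcn⟩ : ∃ c : ℝ, 1 ≤ c ∧ 2 * |K| / b ≤ c ∧
      ∀ n : ℕ, n ≤ n₀ → 1 ≤ c * (((n : ℝ) + 1) ^ b - (n : ℝ) ^ b) := by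
    have hpos : ∀ n : ℕ, 0 < ((n : ℝ) + 1) ^ b - (n : ℝ) ^ b := by
      intro n
      refine lt_of_lt_of_le ?_ (rpow_step hb0.le hb1.le n)
      positivity
    refine ⟨max 1 (max (2 * |K| / b) ((b * ((n₀ : ℝ) + 1) ^ (b - 1))⁻¹)), le_max_left _ _,
      (le_max_left _ _).trans (le_max_right _ _), fun n hn => ?_⟩
    have h1 : b * ((n₀ : ℝ) + 1) ^ (b - 1) ≤ ((n : ℝ) + 1) ^ b - (n : ℝ) ^ b := by
      refine le_trans ?_ (rpow_step hb0.le hb1.le n)
      apply mul_le_mul_of_nonneg_left _ hb0.le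
      apply Real.rpow_le_rpow_of_nonpos (by positivity) _ (by linarith)
      have : (n : ℝ) ≤ n₀ := by exact_mod_cast hn
      linarith
    have h2 : 0 < b * ((n₀ : ℝ) + 1) ^ (b - 1) := by positivity
    calc (1 : ℝ) = (b * ((n₀ : ℝ) + 1) ^ (b - 1))⁻¹ * (b * ((n₀ : ℝ) + 1) ^ (b - 1)) := by
          field_simp
      _ ≤ _ := by
          apply mul_le_mul _ h1 h2.le
          · positivity
          · exact (le_max_right _ _).trans (le_max_right _ _)
  have hc0 : 0 < c := by linarith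
  set s : ℕ → ℝ := fun n => c * (((n : ℝ) + 1) ^ b - (n : ℝ) ^ b) with hs
  have hs0 : ∀ n, 0 ≤ s n := by
    intro n
    simp only [hs]
    have h1 : (n : ℝ) ^ b ≤ ((n : ℝ) + 1) ^ b :=
      Real.rpow_le_rpow (Nat.cast_nonneg n) (by linarith) hb0.le
    apply mul_nonneg hc0.le
    linarith
  have hsC : ∀ n, s n ≤ c := by
    intro n
    simp only [hs]
    have h1 : ((n : ℝ) + 1) ^ b ≤ (n : ℝ) ^ b + 1 := by
      have := Real.rpow_add_le_add_rpow (Nat.cast_nonneg n) zero_le_one hb0.le hb1.le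
      rwa [Real.one_rpow] at this
    nlinarith
  have hS : ∀ N : ℕ, ∑ n ∈ range N, s n = c * (N : ℝ) ^ b := by
    intro N
    induction N with
    | zero => simp [Real.zero_rpow hb0.ne']
    | succ N ih =>
      rw [sum_range_succ, ih]
      simp only [hs]
      push_cast
      ring
  have hsB : ∀ n, P (B n) ≤ ENNReal.ofReal (s n) := by
    intro n
    rcases le_or_gt n n₀ with hn | hn
    · refine prob_le_one.trans ?_
      rw [← ENNReal.ofReal_one]
      exact ENNReal.ofReal_le_ofReal (hcn n hn)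
    · refine (hB n hn.le).trans (ENNReal.ofReal_le_ofReal ?_)
      have hn0 : (0 : ℝ) < n := by exact_mod_cast (Nat.zero_le n₀).trans_lt hn
      have hn1 : (1 : ℝ) ≤ n := by exact_mod_cast (Nat.zero_le n₀).trans_lt hn
      have h1 := rpow_step hb0.le hb1.le n
      have h2 : (n : ℝ) ^ (b - 1) / 2 ≤ ((n : ℝ) + 1) ^ (b - 1) := by
        have h3 : (2 * (n : ℝ)) ^ (b - 1) ≤ ((n : ℝ) + 1) ^ (b - 1) :=
          Real.rpow_le_rpow_of_nonpos (by positivity) (by linarith) (by linarith)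
        rw [Real.mul_rpow (by norm_num) hn0.le] at h3
        have h4 : (2 : ℝ)⁻¹ ≤ (2 : ℝ) ^ (b - 1) := by
          rw [← Real.rpow_neg_one]
          exact Real.rpow_le_rpow_of_exponent_le (by norm_num) (by linarith)
        have h5 : (0 : ℝ) ≤ (n : ℝ) ^ (b - 1) := by positivity
        nlinarith
      have h6 : K / (n : ℝ) ^ (1 - b) ≤ |K| * (n : ℝ) ^ (b - 1) := by
        rw [show (1 - b : ℝ) = -(b - 1) by ring, Real.rpow_neg hn0.le, div_inv_eq_mul]
        exact mul_le_mul_of_nonneg_right (le_abs_self K) (by positivity)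
      have h7 : |K| ≤ c * b / 2 := by
        rw [div_le_iff₀ hb0] at hcK
        linarith
      have h8 : (0 : ℝ) ≤ (n : ℝ) ^ (b - 1) := by positivity
      calc K / (n : ℝ) ^ (1 - b) ≤ |K| * (n : ℝ) ^ (b - 1) := h6
        _ ≤ c * b / 2 * (n : ℝ) ^ (b - 1) := mul_le_mul_of_nonneg_right h7 h8
        _ = c * (b * ((n : ℝ) ^ (b - 1) / 2)) := by ring
        _ ≤ c * (b * ((n : ℝ) + 1) ^ (b - 1)) := by
            apply mul_le_mul_of_nonneg_left _ hc0.le
            exact mul_le_mul_of_nonneg_left h2 hb0.le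
        _ ≤ s n := mul_le_mul_of_nonneg_left h1 hc0.le
  have hdiv : Tendsto (fun N => ∑ n ∈ range N, s n) atTop atTop := by
    simp only [hS]
    exact ((tendsto_rpow_atTop hb0).comp tendsto_natCast_atTop_atTop).const_mul_atTop hc0
  filter_upwards [count hs0 hsC hsB hdiv (half_pos hδ)] with ω hω
  have hlim : Tendsto (fun N : ℕ => (N : ℝ) ^ (δ / 2)) atTop atTop :=
    (tendsto_rpow_atTop (half_pos hδ)).comp tendsto_natCast_atTop_atTop
  filter_upwards [hω, hlim.eventually_ge_atTop (c ^ (1 + δ / 2)), eventually_ge_atTop 1]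
    with N h1 h2 h3
  have hN1 : (1 : ℝ) ≤ N := by exact_mod_cast h3
  have hN0 : (0 : ℝ) < N := by linarith
  rw [hS, Real.mul_rpow hc0.le (by positivity), ← Real.rpow_mul hN0.le] at h1
  refine h1.trans ?_
  calc c ^ (1 + δ / 2) * (N : ℝ) ^ (b * (1 + δ / 2)) ≤
        (N : ℝ) ^ (δ / 2) * (N : ℝ) ^ (b * (1 + δ / 2)) :=
        mul_le_mul_of_nonneg_right h2 (by positivity)
    _ = (N : ℝ) ^ (δ / 2 + b * (1 + δ / 2)) := (Real.rpow_add hN0 _ _).symm
    _ ≤ (N : ℝ) ^ (b + δ) := by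
        apply Real.rpow_le_rpow_of_exponent_le hN1
        nlinarith

/-- the joint law of the first members of two independent sequences -/
lemma map_pair [IsProbabilityMeasure P] {u : ℕ ⊕ ℕ → Ω → ℂ} (hu : ∀ j, AEMeasurable (u j) P)
    (hind : iIndepFun u P) (n : ℕ) :
    AEMeasurable (fun ω => ((fun i : Fin n => u (Sum.inl i) ω), fun i : Fin n => u (Sum.inr i) ω)) P ∧
    P.map (fun ω => ((fun i : Fin n => u (Sum.inl i) ω), fun i : Fin n => u (Sum.inr i) ω)) =
      (Measure.pi fun i : Fin n => P.map (u (Sum.inl i))).prod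
        (Measure.pi fun i : Fin n => P.map (u (Sum.inr i))) := by
  have hpm : ∀ j, IsProbabilityMeasure (P.map (u j)) := fun j =>
    Measure.isProbabilityMeasure_map (hu j)
  let g : Fin n ⊕ Fin n → ℕ ⊕ ℕ := Sum.map Fin.val Fin.val
  have hg : Function.Injective g := Sum.map_injective.2 ⟨Fin.val_injective, Fin.val_injective⟩
  have h1 : iIndepFun (fun j => u (g j)) P := hind.precomp hg
  have h2 := (iIndepFun_iff_map_fun_eq_pi_map fun j => hu (g j)).1 h1
  have hm : AEMeasurable (fun ω (j : Fin n ⊕ Fin n) => u (g j) ω) P :=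
    aemeasurable_pi_lambda _ fun j => hu (g j)
  have h3 := measurePreserving_sumPiEquivProdPi
    (fun j : Fin n ⊕ Fin n => P.map (u (g j)))
  have h4 : (fun ω => ((fun i : Fin n => u (Sum.inl i) ω), fun i : Fin n => u (Sum.inr i) ω)) =
      (MeasurableEquiv.sumPiEquivProdPi fun _ : Fin n ⊕ Fin n => ℂ) ∘
        (fun ω (j : Fin n ⊕ Fin n) => u (g j) ω) := by
    funext ω
    rfl
  refine ⟨?_, ?_⟩
  · rw [h4]
    exact (MeasurableEquiv.measurable _).comp_aemeasurable hm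
  · rw [h4, ← AEMeasurable.map_map_of_aemeasurable (MeasurableEquiv.measurable _).aemeasurable hm,
      h2]
    exact h3.map_eq

/-- the joint law of the first members of an independent sequence -/
lemma map_seq [IsProbabilityMeasure P] {u : ℕ → Ω → ℂ} (hu : ∀ j, AEMeasurable (u j) P)
    (hind : iIndepFun u P) (n : ℕ) :
    AEMeasurable (fun ω => (fun i : Fin n => u i ω)) P ∧
    P.map (fun ω => (fun i : Fin n => u i ω)) = Measure.pi fun i : Fin n => P.map (u i) := by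
  have h1 : iIndepFun (fun j : Fin n => u j) P := hind.precomp Fin.val_injective
  exact ⟨aemeasurable_pi_lambda _ fun j => hu j,
    (iIndepFun_iff_map_fun_eq_pi_map fun j : Fin n => hu j).1 h1⟩

/-- almost every complex number, with respect to logarithmic area -/
lemma ae_of_la {Q : ℂ → Prop} (h : ∀ᵐ a ∂la, Q a) : ∀ᵐ a : ℂ, Q a := by
  have h1 : (volume : Measure ℂ) ≪ la := by
    apply withDensity_absolutelyContinuous' (by fun_prop)
    have h2 : ∀ᵐ a : ℂ, a ≠ 0 := by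
      rw [ae_iff]
      simp
    filter_upwards [h2] with a ha
    have : 0 < (‖a‖ ^ 2)⁻¹ := by positivity
    simpa using ha
  exact h1.ae_le h

/-- the preimage of a set of finite logarithmic area -/
lemma la_preimage {E : Set ℂ} {A : ℝ} (hE : la E ≤ ENNReal.ofReal A)
    (hscale : ∀ b : ℂ, b ≠ 0 → ∀ E : Set ℂ, MeasurableSet E → la ((fun a : ℂ => a * b) ⁻¹' E) = la E)
    {m : ℕ} (hm : 1 ≤ m) {b : ℂ} (hb : b ≠ 0) :
    la {a | a ^ m * b ∈ E} ≤ ENNReal.ofReal (A / m) := by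
  have hmr : (0 : ℝ) < m := by exact_mod_cast hm
  set E' := toMeasurable la E with hE'
  have h1 : {a : ℂ | a ^ m * b ∈ E} ⊆ (fun a : ℂ => a ^ m) ⁻¹' ((fun a : ℂ => a * b) ⁻¹' E') := by
    intro a ha
    exact subset_toMeasurable la E ha
  have hmE : MeasurableSet E' := measurableSet_toMeasurable _ _
  have hmb : Measurable (fun a : ℂ => a * b) := by fun_prop
  have h2 := la_pow (hmb hmE) hm
  rw [hscale b hb E' hmE, hE', measure_toMeasurable] at h2
  have h3 : la ((fun a : ℂ => a ^ m) ⁻¹' ((fun a : ℂ => a * b) ⁻¹' E')) ≤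
      ENNReal.ofReal (A / m) := by
    rw [ENNReal.ofReal_div_of_pos hmr, ENNReal.le_div_iff_mul_le (by left; simpa using (by omega : m ≠ 0))
      (by left; exact ENNReal.ofReal_ne_top), mul_comm]
    rw [hE', h2]
    exact hE
  exact (measure_mono h1).trans h3

end Pool.Agent.Helper99.FA
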